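import Pool.Agent.J4.H17.ZC.Sym

/-!
# Antisymmetric pairs of colours

Functions on the symmetric group of the set of the elements of pairs which are alternating under
exchanges in the pairs and under permutations of the pairs.
-/

set_option autoImplicit false

namespace Pool.Agent.J4.H25.MX

open Equiv Finset Pool.Agent.J4.H17.ZC

section

variable {n : ℕ}

variable (n) in
/-- the functions which change the sign under exchanges in the pairs, are alternating under
permutations of the pairs, and killed by symmetrization in `g + 1` elements on the right -/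
def killed3 (g : ℕ) : Submodule ℚ (Perm (Fin n × Bool) → ℚ) where
  carrier := {f | (∀ T : Finset (Fin n × Bool), T.card = g + 1 → ∀ u,
      ∑ τ ∈ PT T, f (u * τ) = 0) ∧
    (∀ m u, f (Pool.Agent.J4.H17.ZC.flip m * u) = -f u) ∧
    ∀ σ u, f (prm σ * u) = ((Perm.sign σ : ℤ) : ℚ) * f u}
  zero_mem' := ⟨fun T _ u => by simp, fun m u => by simp, fun σ u => by simp⟩
  add_mem' := fun {f g} hf hg => ⟨fun T hT u => by
      simp only [Pi.add_apply, Finset.sum_add_distrib, hf.1 T hT u, hg.1 T hT u, add_zero],
    fun m u => by rw [Pi.add_apply, Pi.add_apply, hf.2.1, hg.2.1, neg_add],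
    fun σ u => by rw [Pi.add_apply, Pi.add_apply, hf.2.2, hg.2.2, mul_add]⟩
  smul_mem' := fun c f hf => ⟨fun T hT u => by
      simp only [Pi.smul_apply, smul_eq_mul, ← Finset.mul_sum, hf.1 T hT u, mul_zero],
    fun m u => by rw [Pi.smul_apply, Pi.smul_apply, hf.2.1, smul_neg],
    fun σ u => by rw [Pi.smul_apply, Pi.smul_apply, hf.2.2, smul_eq_mul, smul_eq_mul]; ring⟩

theorem mem_killed3 {g : ℕ} {f : Perm (Fin n × Bool) → ℚ} : f ∈ killed3 n g ↔
    (∀ T : Finset (Fin n × Bool), T.card = g + 1 → ∀ u, ∑ τ ∈ PT T, f (u * τ) = 0) ∧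
    (∀ m u, f (Pool.Agent.J4.H17.ZC.flip m * u) = -f u) ∧
    ∀ σ u, f (prm σ * u) = ((Perm.sign σ : ℤ) : ℚ) * f u := Iff.rfl

theorem rtr_killed3 {g : ℕ} (σ : Perm (Fin n × Bool)) {f : Perm (Fin n × Bool) → ℚ}
    (hf : f ∈ killed3 n g) : rtr (Fin n × Bool) σ f ∈ killed3 n g := by
  refine ⟨?_, ?_, ?_⟩
  · intro T hT u
    have h := hf.1 (T.map (σ⁻¹).toEmbedding) (by rw [card_map, hT]) (u * σ)
    rw [← sum_conj] at h
    rw [← h]
    refine Finset.sum_congr rfl fun τ _ => ?_
    rw [rtr_apply]
    congr 1
    group
  · intro m u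
    rw [rtr_apply, rtr_apply, mul_assoc, hf.2.1]
  · intro τ u
    rw [rtr_apply, rtr_apply, mul_assoc, hf.2.2]

/-- The functions in `killed3` are zero if the number of the pairs is greater than the number of
the unordered pairs, with repetitions, of colours. -/
theorem killed3_eq_zero {g : ℕ} (hn : (g + 1).choose 2 < n) {f : Perm (Fin n × Bool) → ℚ}
    (hf : f ∈ killed3 n g) : f = 0 := by
  classical
  by_contra hf0
  obtain ⟨c, hc, v, hv, hv0, hcv⟩ := exists_coloring (rtr (Fin n × Bool)) g univ (killed3 n g)
    (fun i _ j _ v hv => rtr_killed3 _ hv) ⟨f, hf, hf0⟩ (by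
      intro T _ hT v hv hfix
      rw [mem_killed3] at hv
      have h1 : ∀ τ ∈ PT T, ∀ u, v (u * τ) = v u := by
        intro τ hτ
        refine PT_induction (P := fun τ => ∀ u, v (u * τ) = v u) (by simp) ?_ hτ
        intro i hi j hj τ h u
        rw [← mul_assoc, h]
        have := congrFun (hfix i hi j hj) u
        rwa [rtr_apply] at this
      ext u
      have h2 := hv.1 T hT u
      rw [Finset.sum_congr rfl fun τ hτ => h1 τ hτ u, Finset.sum_const, nsmul_eq_mul,
        mul_eq_zero] at h2
      rcases h2 with h2 | h2
      · exfalso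
        have h3 : (PT T).card = 0 := by exact_mod_cast h2
        rw [Finset.card_eq_zero] at h3
        have h4 : (1 : Perm (Fin n × Bool)) ∈ PT T := by rw [mem_PT]; intro x _; rfl
        rw [h3] at h4
        exact absurd h4 (Finset.notMem_empty _)
      · exact h2)
  rw [mem_killed3] at hv
  have hcv' : ∀ i j, i ≠ j → c i = c j → ∀ u, v (u * swap i j) = - v u := by
    intro i j hij h u
    have := congrFun (hcv i (mem_univ _) j (mem_univ _) hij h) u
    rwa [rtr_apply, Pi.neg_apply] at this
  apply hv0
  funext u
  by_contra hu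
  have hu' : v u ≠ 0 := hu
  -- the colours of the elements of the pairs
  let b : Fin n → Bool → ℕ := fun m e => c (u.symm (m, e))
  have hbu : ∀ (w : Perm (Fin n × Bool)) m e m' e', (m, e) ≠ (m', e') →
      c (w.symm (m, e)) = c (w.symm (m', e')) → v (swap (m, e) (m', e') * w) = - v w := by
    intro w m e m' e' hne h
    have h1 := hcv' (w.symm (m, e)) (w.symm (m', e')) (fun h => hne (w.symm.injective h)) h w
    rw [Equiv.mul_swap_eq_swap_mul, Equiv.apply_symm_apply, Equiv.apply_symm_apply] at h1
    exact h1
  have hb : ∀ m e m' e', (m, e) ≠ (m', e') → b m e = b m' e' →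
      v (swap (m, e) (m', e') * u) = - v u := fun m e m' e' hne h => hbu u m e m' e' hne h
  -- the pairs of colours
  have hcard : ((range (g + 1)).powersetCard 2).card < (univ : Finset (Fin n)).card := by
    rw [card_powersetCard, card_range, card_univ, Fintype.card_fin]
    exact hn
  obtain ⟨m, _, m', _, hmm, hpair⟩ := Finset.exists_ne_map_eq_of_card_lt_of_maps_to hcard
    (f := fun m => {min (b m false) (b m true), max (b m false) (b m true) + 1}) (by
      intro m _
      rw [Finset.mem_coe, Finset.mem_powersetCard]
      have h1 : b m false < g := hc _ (mem_univ _)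
      have h2 : b m true < g := hc _ (mem_univ _)
      refine ⟨?_, ?_⟩
      · intro x hx
        simp only [Finset.mem_insert, Finset.mem_singleton] at hx
        rw [Finset.mem_range]
        omega
      · exact Finset.card_pair (by omega))
  have hpair' : ({min (b m false) (b m true), max (b m false) (b m true) + 1} : Finset ℕ) =
    {min (b m' false) (b m' true), max (b m' false) (b m' true) + 1} := hpair
  have hsgn : v (prm (swap m m') * u) = - v u := by
    rw [hv.2.2, Perm.sign_swap hmm]
    push_cast
    ring
  have hpair2 : (b m false = b m' false ∧ b m true = b m' true) ∨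
      (b m false = b m' true ∧ b m true = b m' false) := by
    have h1 : min (b m false) (b m true) ∈
        ({min (b m' false) (b m' true), max (b m' false) (b m' true) + 1} : Finset ℕ) := by
      rw [← hpair']; simp
    have h2 : max (b m false) (b m true) + 1 ∈
        ({min (b m' false) (b m' true), max (b m' false) (b m' true) + 1} : Finset ℕ) := by
      rw [← hpair']; simp
    have h3 : min (b m' false) (b m' true) ∈
        ({min (b m false) (b m true), max (b m false) (b m true) + 1} : Finset ℕ) := by
      rw [hpair']; simp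
    have h4 : max (b m' false) (b m' true) + 1 ∈
        ({min (b m false) (b m true), max (b m false) (b m true) + 1} : Finset ℕ) := by
      rw [hpair']; simp
    simp only [Finset.mem_insert, Finset.mem_singleton] at h1 h2 h3 h4
    omega
  rcases hpair2 with ⟨h1, h2⟩ | ⟨h1, h2⟩
  · have h3 := hb m false m' false (fun h => hmm (congrArg Prod.fst h)) h1
    have h4 := hbu (swap (m, false) (m', false) * u) m true m' true
      (fun h => hmm (congrArg Prod.fst h)) (by
        have e1 : (swap (m, false) (m', false) * u).symm (m, true) = u.symm (m, true) := by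
          rw [Equiv.symm_apply_eq, Perm.mul_apply, Equiv.apply_symm_apply,
            swap_apply_of_ne_of_ne (by simp) (by simp)]
        have e2 : (swap (m, false) (m', false) * u).symm (m', true) = u.symm (m', true) := by
          rw [Equiv.symm_apply_eq, Perm.mul_apply, Equiv.apply_symm_apply,
            swap_apply_of_ne_of_ne (by simp) (by simp)]
        rw [e1, e2]
        exact h2)
    have h5 : swap (m, true) (m', true) * (swap (m, false) (m', false) * u) =
        prm (swap m m') * u := by
      rw [← mul_assoc]
      congr 1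
      ext1 ⟨i, e⟩
      rw [prm_apply, Perm.mul_apply]
      rcases eq_or_ne i m with rfl | hi
      · cases e
        · rw [swap_apply_left, swap_apply_left, swap_apply_of_ne_of_ne (by simp) (by simp)]
        · rw [swap_apply_left, swap_apply_of_ne_of_ne (a := (i, false)) (by simp) (by simp),
            swap_apply_left]
      · rcases eq_or_ne i m' with rfl | hi'
        · cases e
          · rw [swap_apply_right, swap_apply_right, swap_apply_of_ne_of_ne (by simp) (by simp)]
          · rw [swap_apply_right, swap_apply_of_ne_of_ne (a := (m, false)) (by simp) (by simp),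
              swap_apply_right]
        · rw [swap_apply_of_ne_of_ne hi hi', swap_apply_of_ne_of_ne (a := (m, false))
            (by simp [hi]) (by simp [hi']), swap_apply_of_ne_of_ne (by simp [hi]) (by simp [hi'])]
    rw [h5, h3, hsgn] at h4
    apply hu'
    linarith
  · have h3 := hb m false m' true (fun h => hmm (congrArg Prod.fst h)) h1
    have h4 := hbu (swap (m, false) (m', true) * u) m true m' false
      (fun h => hmm (congrArg Prod.fst h)) (by
        have e1 : (swap (m, false) (m', true) * u).symm (m, true) = u.symm (m, true) := by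
          rw [Equiv.symm_apply_eq, Perm.mul_apply, Equiv.apply_symm_apply,
            swap_apply_of_ne_of_ne (by simp) (by simp [hmm])]
        have e2 : (swap (m, false) (m', true) * u).symm (m', false) = u.symm (m', false) := by
          rw [Equiv.symm_apply_eq, Perm.mul_apply, Equiv.apply_symm_apply,
            swap_apply_of_ne_of_ne (by simp [hmm.symm]) (by simp)]
        rw [e1, e2]
        exact h2)
    have h5 : swap (m, true) (m', false) * (swap (m, false) (m', true) * u) =
        Pool.Agent.J4.H17.ZC.flip m * (Pool.Agent.J4.H17.ZC.flip m' * (prm (swap m m') * u)) := by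
      rw [← mul_assoc, ← mul_assoc, ← mul_assoc, cross_eq hmm]
    rw [h5, hv.2.1, hv.2.1, h3, hsgn] at h4
    apply hu'
    linarith

/-- the sign of a set of exchanges -/
def sge (e : Fin n → Bool) : ℚ := ∏ i, if e i then -1 else 1

theorem sge_update (e : Fin n → Bool) (m : Fin n) :
    sge (Function.update e m (!e m)) = -sge e := by
  unfold sge
  rw [← Finset.mul_prod_erase univ _ (mem_univ m), ← Finset.mul_prod_erase univ _ (mem_univ m),
    Function.update_self, ← neg_mul]
  congr 1
  · cases e m <;> simp
  · refine Finset.prod_congr rfl fun i hi => ?_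
    rw [Function.update_of_ne (Finset.ne_of_mem_erase hi)]

/-- The signed combination of the values of a function at the elements of the wreath product. -/
theorem comb3 {g : ℕ} (hn : (g + 1).choose 2 < n) (Φ : Perm (Fin n × Bool) → ℚ)
    (hΦ : ∀ T : Finset (Fin n × Bool), T.card = g + 1 → ∀ u, ∑ τ ∈ PT T, Φ (u * τ) = 0) :
    ∑ σ : Perm (Fin n), ((Perm.sign σ : ℤ) : ℚ) * ∑ e : Fin n → Bool,
      sge e * Φ (fl e * prm σ) = 0 := by
  classical
  let f : Perm (Fin n × Bool) → ℚ := fun u =>
    ∑ σ : Perm (Fin n), ((Perm.sign σ : ℤ) : ℚ) * ∑ e : Fin n → Bool,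
      sge e * Φ (fl e * prm σ * u)
  have hf : f ∈ killed3 n g := by
    rw [mem_killed3]
    refine ⟨?_, ?_, ?_⟩
    · intro T hT u
      change ∑ τ ∈ PT T, ∑ σ : Perm (Fin n), ((Perm.sign σ : ℤ) : ℚ) *
        ∑ e : Fin n → Bool, sge e * Φ (fl e * prm σ * (u * τ)) = 0
      rw [Finset.sum_comm]
      refine Finset.sum_eq_zero fun σ _ => ?_
      rw [← Finset.mul_sum, Finset.sum_comm, Finset.sum_eq_zero, mul_zero]
      intro e _
      have h1 := hΦ T hT (fl e * prm σ * u)
      rw [← Finset.mul_sum]
      have h2 : ∑ τ ∈ PT T, Φ (fl e * prm σ * (u * τ)) = 0 := by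
        rw [← h1]
        refine Finset.sum_congr rfl fun τ _ => ?_
        simp only [mul_assoc]
      rw [h2, mul_zero]
    · intro m u
      change ∑ σ : Perm (Fin n), ((Perm.sign σ : ℤ) : ℚ) *
        ∑ e : Fin n → Bool, sge e * Φ (fl e * prm σ * (Pool.Agent.J4.H17.ZC.flip m * u)) =
        -∑ σ : Perm (Fin n), ((Perm.sign σ : ℤ) : ℚ) * ∑ e : Fin n → Bool,
          sge e * Φ (fl e * prm σ * u)
      rw [← Finset.sum_neg_distrib]
      refine Finset.sum_congr rfl fun σ _ => ?_
      rw [← mul_neg, ← Finset.sum_neg_distrib]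
      congr 1
      have hinv : ∀ e : Fin n → Bool, Function.update (Function.update e (σ m) (!e (σ m))) (σ m)
          (!(Function.update e (σ m) (!e (σ m)) (σ m))) = e := by
        intro e
        rw [Function.update_self, Bool.not_not, Function.update_idem, Function.update_eq_self]
      refine Fintype.sum_bijective (fun e : Fin n → Bool => Function.update e (σ m) (!e (σ m)))
        (Function.Involutive.bijective hinv) _ _ fun e => ?_
      rw [← mul_assoc, fl_flip, sge_update]
      ring
    · intro τ u
      change ∑ σ : Perm (Fin n), ((Perm.sign σ : ℤ) : ℚ) *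
        ∑ e : Fin n → Bool, sge e * Φ (fl e * prm σ * (prm τ * u)) =
        ((Perm.sign τ : ℤ) : ℚ) *
        ∑ σ : Perm (Fin n), ((Perm.sign σ : ℤ) : ℚ) * ∑ e : Fin n → Bool,
          sge e * Φ (fl e * prm σ * u)
      rw [Finset.mul_sum]
      refine Fintype.sum_equiv (Equiv.mulRight τ) _ _ fun σ => ?_
      rw [Equiv.coe_mulRight, ← mul_assoc, Perm.sign_mul]
      have h1 : ((Perm.sign τ : ℤ) : ℚ) * ((Perm.sign τ : ℤ) : ℚ) = 1 := by
        have h2 : (Perm.sign τ : ℤ) * (Perm.sign τ : ℤ) = 1 := by
          rw [← Units.val_mul, Int.units_mul_self]; rfl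
        exact_mod_cast h2
      have h3 : ∀ e : Fin n → Bool, sge e * Φ (fl e * prm σ * (prm τ * u)) =
          sge e * Φ (fl e * prm (σ * τ) * u) := by
        intro e
        rw [prm_mul]
        simp only [mul_assoc]
      rw [Finset.sum_congr rfl fun e _ => h3 e]
      push_cast
      calc ((Perm.sign σ : ℤ) : ℚ) * ∑ e : Fin n → Bool, sge e * Φ (fl e * prm (σ * τ) * u)
          = (((Perm.sign τ : ℤ) : ℚ) * ((Perm.sign τ : ℤ) : ℚ)) * (((Perm.sign σ : ℤ) : ℚ) *
            ∑ e : Fin n → Bool, sge e * Φ (fl e * prm (σ * τ) * u)) := by rw [h1, one_mul]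
        _ = _ := by ring
  have h0 : f = 0 := killed3_eq_zero hn hf
  have h1 : f 1 = 0 := by rw [h0]; rfl
  rw [← h1]
  rfl

end

end Pool.Agent.J4.H25.MX
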